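import Pool.Agent.Q189.Frustum
import Pool.Agent.Q189.SpernerBd

/-!
# MP_ff4a33_gt: the least dimension of a simplicial refinement can be logarithmic in the number of
extreme points, and is never smaller than that
-/

set_option autoImplicit false

namespace Pool.Agent.Results.MP_ff4a33_gt.LogarithmicDimension

open Q189.SimpDefs

/-- **Theorem.**
(1) Let `C` be a polytope in `ℝ^d` which has a simplicial refinement `(T, Ω_T, f, g)` in which the
simplex `T` has `k` vertices. Then `C` has at most `k.choose (k / 2)` extreme points.
(2) For every `n ≥ 1` there are a polytope `C` in `ℝ³` with exactly `2 ^ n + 3` extreme points, which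
is not a simplex, and a simplicial refinement of `(C, Ω_C)` in which the simplex `T` has only
`2 * n + 4` vertices. -/
theorem result :
    (∀ (V : Type) [AddCommGroup V] [Module ℝ V] (k d : ℕ) (v : Fin k → V)
      (C : Set (Fin d → ℝ)) (f : PartialAffineOnto (hull v) C)
      (g : PartialAffineOnto (convexForms (hull v)) (convexForms C)),
      IsPolytope C → IsSimplicialRefinement v C f g →
        (C.extremePoints ℝ).ncard ≤ k.choose (k / 2)) ∧
    (∀ n : ℕ, 1 ≤ n → ∃ (C : Set (Fin 3 → ℝ))
      (v : Fin (2 * n + 4) → (Fin (2 * n + 4) → ℝ)) (f : PartialAffineOnto (hull v) C)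
      (g : PartialAffineOnto (convexForms (hull v)) (convexForms C)),
      IsPolytope C ∧ ¬ IsSimplex C ∧ (C.extremePoints ℝ).ncard = 2 ^ n + 3 ∧
        IsSimplicialRefinement v C f g) :=
  ⟨fun _ _ _ _ _ v C f g hC h => Q189.SpernerBd.sperner_bound v C hC f g h,
    fun n hn => Q189.Frustum.exists_example n hn⟩

end Pool.Agent.Results.MP_ff4a33_gt.LogarithmicDimension
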